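import Pool.Agent.W216.HB.BrunLow
import Pool.Agent.W313.HB.Stm

/-!
# Many values of a polynomial without small prime factors
-/

set_option autoImplicit false

namespace Pool.Agent.W216.HB

open Finset Polynomial Pool.Agent.Helper742 Pool.Agent.W313.HB

theorem val_mod (F : ℤ[X]) (t1 M q u v : ℕ) (h : u % q = v % q) :
    ((q : ℤ) ∣ val F t1 M u ↔ (q : ℤ) ∣ val F t1 M v) := by
  have h1 : (q : ℤ) ∣ val F t1 M u - val F t1 M v := by
    unfold Pool.Agent.W313.HB.val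
    refine dvd_trans ?_ (Polynomial.sub_dvd_eval_sub _ _ F)
    have h2 : ((t1 : ℤ) + (M : ℤ) * (u : ℤ)) - ((t1 : ℤ) + (M : ℤ) * (v : ℤ)) =
        (M : ℤ) * ((u : ℤ) - v) := by ring
    rw [h2]
    apply Dvd.dvd.mul_left
    have h3 : (u : ℤ) ≡ v [ZMOD q] := by
      have := (Int.natCast_modEq_iff (a := u) (b := v) (n := q)).2 h
      exact this
    exact (Int.modEq_iff_dvd.1 h3.symm)
  constructor
  · intro h4
    have := dvd_sub h4 h1
    simpa using this
  · intro h4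
    have := dvd_add h1 h4
    simpa using this

theorem rho_le (F : ℤ[X]) (hF : F ≠ 0) (q : ℕ) (hq : q.Prime) (hz : F.leadingCoeff.natAbs < q)
    (t1 M : ℕ) (hM : ¬ q ∣ M) (a : ℕ) :
    ((range q).filter (fun n => (q : ℤ) ∣ val F t1 M (a + n))).card ≤ F.natDegree := by
  classical
  have : Fact q.Prime := ⟨hq⟩
  set G := F.map (Int.castRingHom (ZMod q)) with hG
  have hlc : F.leadingCoeff ≠ 0 := leadingCoeff_ne_zero.2 hF
  have hlc' : ((F.leadingCoeff : ℤ) : ZMod q) ≠ 0 := by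
    intro h
    rw [ZMod.intCast_zmod_eq_zero_iff_dvd] at h
    have h5 := Int.le_of_dvd (abs_pos.2 hlc) ((dvd_abs _ _).2 h)
    have h6 := Int.natCast_natAbs F.leadingCoeff
    omega
  have hG0 : G ≠ 0 := by
    intro h
    apply hlc'
    have : G.coeff F.natDegree = 0 := by rw [h]; simp
    rw [hG, coeff_map] at this
    exact this
  have hM' : (M : ZMod q) ≠ 0 := by
    rw [Ne, ZMod.natCast_eq_zero_iff]
    exact hM
  calc ((range q).filter (fun n => (q : ℤ) ∣ val F t1 M (a + n))).card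
      ≤ G.roots.toFinset.card := by
        refine card_le_card_of_injOn (fun n : ℕ => (t1 : ZMod q) + M * ((a + n : ℕ) : ZMod q)) ?_ ?_
        · intro n hn
          rw [mem_coe, mem_filter] at hn
          rw [mem_coe, Multiset.mem_toFinset, mem_roots hG0, IsRoot.def]
          have h1 := (ZMod.intCast_zmod_eq_zero_iff_dvd _ _).2 hn.2
          unfold Pool.Agent.W313.HB.val at h1
          have h2 := Polynomial.eval_intCast_map (Int.castRingHom (ZMod q)) F
            ((t1 : ℤ) + (M : ℤ) * ((a + n : ℕ) : ℤ))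
          have h3 : ((((t1 : ℤ) + (M : ℤ) * ((a + n : ℕ) : ℤ) : ℤ)) : ZMod q) =
              (t1 : ZMod q) + M * ((a + n : ℕ) : ZMod q) := by push_cast; ring
          rw [h3] at h2
          rw [hG, h2]
          exact h1
        · intro n hn n' hn' h
          rw [mem_coe, mem_filter, mem_range] at hn hn'
          have h1 : (M : ZMod q) * ((a + n : ℕ) : ZMod q) = M * ((a + n' : ℕ) : ZMod q) :=
            add_left_cancel h
          have h2 := mul_left_cancel₀ hM' h1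
          push_cast at h2
          have h3 := add_left_cancel h2
          rw [ZMod.natCast_eq_natCast_iff] at h3
          exact Nat.ModEq.eq_of_lt_of_lt h3 hn.1 hn'.1
    _ ≤ G.roots.card := Multiset.toFinset_card_le _
    _ ≤ G.natDegree := card_roots' _
    _ ≤ F.natDegree := natDegree_map_le

theorem ev_le (a b κ : ℝ) (ha : 0 ≤ a) (hκ : 0 < κ) : ∃ x0 : ℝ, 1 ≤ x0 ∧ ∀ x : ℝ, x0 ≤ x →
    a * Real.log (1 + κ * x) + b ≤ x := by
  refine ⟨max 1 (max (16 * a ^ 2) (2 * (a * Real.log (1 + κ) + b))), le_max_left _ _, ?_⟩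
  intro x hx
  have h1 : 1 ≤ x := (le_max_left _ _).trans hx
  have h2 : 16 * a ^ 2 ≤ x := ((le_max_left _ _).trans (le_max_right _ _)).trans hx
  have h3 : 2 * (a * Real.log (1 + κ) + b) ≤ x :=
    ((le_max_right _ _).trans (le_max_right _ _)).trans hx
  have hx0 : 0 < x := by linarith
  have h4 : Real.log (1 + κ * x) ≤ Real.log (1 + κ) + Real.log x := by
    rw [← Real.log_mul (by positivity) (by positivity)]
    apply Real.log_le_log (by positivity)
    nlinarith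
  have h5 : Real.log x ≤ 2 * √x := by
    have h6 : Real.log x = 2 * Real.log (√x) := by
      rw [Real.log_sqrt hx0.le]; ring
    rw [h6]
    have := Real.log_le_self (Real.sqrt_nonneg x)
    linarith
  have h7 : 4 * a ≤ √x := by
    apply Real.le_sqrt_of_sq_le
    nlinarith
  have h8 : √x * √x = x := Real.mul_self_sqrt hx0.le
  have h9 : a * (2 * √x) ≤ x / 2 := by
    have : 4 * a * √x ≤ √x * √x := mul_le_mul_of_nonneg_right h7 (Real.sqrt_nonneg x)
    nlinarith
  calc a * Real.log (1 + κ * x) + b ≤ a * (Real.log (1 + κ) + 2 * √x) + b := by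
        have := mul_le_mul_of_nonneg_left (h4.trans (by linarith :
          Real.log (1 + κ) + Real.log x ≤ Real.log (1 + κ) + 2 * √x)) ha
        linarith
    _ ≤ x := by
        rw [mul_add]
        linarith

theorem one_sub_ge' {x : ℝ} (h0 : 0 ≤ x) (h1 : x ≤ 1 / 2) : Real.exp (-(2 * x)) ≤ 1 - x := by
  have h2 : 0 < 1 - x := by linarith
  rw [← Real.le_log_iff_exp_le h2]
  have h3 := Real.one_sub_inv_le_log_of_pos h2
  refine le_trans ?_ h3
  have h4 : (1 - x)⁻¹ ≤ 1 + 2 * x := by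
    rw [inv_le_iff_one_le_mul₀ h2]
    nlinarith
  linarith

/-- The sieve with explicit parameters. -/
theorem sieve_aux (F : ℤ[X]) (hF : F ≠ 0) (CM : ℝ)
    (hCM : ∀ N : ℕ, 2 ≤ N →
      ∑ p ∈ (Finset.Icc 1 N).filter Nat.Prime, (1 : ℝ) / p ≤ Real.log (1 + Real.log N) + CM)
    (E : ℕ) (hE : 2 ≤ E) (M t1 : ℕ) (Q : Finset ℕ)
    (hQ : ∀ q ∈ Q, q.Prime ∧ 2 * F.natDegree + 2 + F.leadingCoeff.natAbs ≤ q ∧ q ≤ E ∧ ¬ q ∣ M)
    (r U : ℕ) (hr : Even r)
    (hr1 : 5 * (F.natDegree * (Real.log (1 + Real.log E) + CM)) + 1 ≤ (r : ℝ)) :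
    (U : ℝ) * (Real.exp (-(2 * (F.natDegree * (Real.log (1 + Real.log E) + CM)))) / 2) -
        3 * (E : ℝ) ^ (2 * r) ≤
      (((Ioc U (2 * U)).filter (fun u : ℕ => ∀ q ∈ Q, ¬ (q : ℤ) ∣ val F t1 M u)).card : ℝ) := by
  classical
  set d := F.natDegree with hd
  set Λ := (d : ℝ) * (Real.log (1 + Real.log E) + CM) with hΛ
  let w : ℕ → ℕ → ℝ := fun q n => if (q : ℤ) ∣ val F t1 M (U + 1 + n) then 1 else 0
  have hw0 : ∀ p ∈ Q, ∀ n, 0 ≤ w p n := by
    intro p _ n; simp only [w]; split_ifs <;> norm_num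
  have hw1 : ∀ p ∈ Q, ∀ n, w p n ≤ 1 := by
    intro p _ n; simp only [w]; split_ifs <;> norm_num
  have hper : ∀ p ∈ Q, ∀ n, w p (n % p) = w p n := by
    intro p _ n
    simp only [w]
    have : ((p : ℤ) ∣ val F t1 M (U + 1 + n % p)) ↔ ((p : ℤ) ∣ val F t1 M (U + 1 + n)) :=
      val_mod F t1 M p _ _ (by simp [Nat.add_mod])
    simp only [this]
  have hmean : ∀ p ∈ Q, mean w p ≤ d / (p : ℝ) := by
    intro p hp
    obtain ⟨h1, h2, h3, h4⟩ := hQ p hp
    unfold mean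
    have hp0 : (0 : ℝ) < p := by exact_mod_cast h1.pos
    apply div_le_div_of_nonneg_right _ hp0.le
    have := rho_le F hF p h1 (by omega) t1 M h4 (U + 1)
    calc ∑ n ∈ range p, w p n =
        (((range p).filter (fun n => (p : ℤ) ∣ val F t1 M (U + 1 + n))).card : ℝ) := by
          simp only [w]
          rw [← Finset.sum_filter, Finset.sum_const, nsmul_eq_mul, mul_one]
      _ ≤ d := by exact_mod_cast this
  have hmean0 : ∀ p ∈ Q, 0 ≤ mean w p := fun p hp =>
    div_nonneg (Finset.sum_nonneg (fun n _ => hw0 p hp n)) (by positivity)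
  have hmeanh : ∀ p ∈ Q, mean w p ≤ 1 / 2 := by
    intro p hp
    refine (hmean p hp).trans ?_
    obtain ⟨h1, h2, h3, h4⟩ := hQ p hp
    have hp0 : (0 : ℝ) < p := by exact_mod_cast h1.pos
    rw [div_le_iff₀ hp0]
    have : (2 * d + 2 + F.leadingCoeff.natAbs : ℝ) ≤ p := by exact_mod_cast h2
    have h5 : (0 : ℝ) ≤ (F.leadingCoeff.natAbs : ℝ) := Nat.cast_nonneg _
    linarith
  have hsum : ∑ p ∈ Q, mean w p ≤ Λ := by
    calc ∑ p ∈ Q, mean w p ≤ ∑ p ∈ Q, (d : ℝ) * (1 / (p : ℝ)) :=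
          Finset.sum_le_sum (fun p hp => (hmean p hp).trans (by rw [mul_one_div]))
      _ = d * ∑ p ∈ Q, 1 / (p : ℝ) := by rw [Finset.mul_sum]
      _ ≤ d * ∑ p ∈ (Finset.Icc 1 E).filter Nat.Prime, 1 / (p : ℝ) := by
          apply mul_le_mul_of_nonneg_left _ (Nat.cast_nonneg _)
          apply Finset.sum_le_sum_of_subset_of_nonneg
          · intro p hp
            obtain ⟨h1, h2, h3, h4⟩ := hQ p hp
            rw [mem_filter, mem_Icc]
            exact ⟨⟨h1.one_le, h3⟩, h1⟩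
          · intro p _ _
            positivity
      _ ≤ Λ := mul_le_mul_of_nonneg_left (hCM E hE) (Nat.cast_nonneg _)
  have hsum0 : 0 ≤ ∑ p ∈ Q, mean w p := Finset.sum_nonneg hmean0
  have hprod : Real.exp (-(2 * ∑ p ∈ Q, mean w p)) ≤ ∏ p ∈ Q, (1 - mean w p) := by
    have : -(2 * ∑ p ∈ Q, mean w p) = ∑ p ∈ Q, (-(2 * mean w p)) := by
      rw [Finset.sum_neg_distrib, Finset.mul_sum]
    rw [this, Real.exp_sum]
    apply Finset.prod_le_prod
    · intro p _; exact (Real.exp_pos _).le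
    · intro p hp
      exact one_sub_ge' (hmean0 p hp) (hmeanh p hp)
  have hb := brun_lower Q E r (by omega) hr (fun p hp => ⟨(hQ p hp).1, (hQ p hp).2.2.1⟩) w hw0 hw1
    hper (Real.exp 1) (Real.exp_pos 1) U
  set S := ∑ p ∈ Q, mean w p with hS
  have htail : (Real.exp 1)⁻¹ ^ r * Real.exp (Real.exp 1 * S) ≤ Real.exp (-(2 * S)) / 2 := by
    rw [← Real.exp_neg, ← Real.exp_nat_mul, ← Real.exp_add]
    have he := Real.exp_one_lt_d9
    have he' := Real.exp_one_gt_d9
    have h1 : (r : ℝ) * -1 + Real.exp 1 * S ≤ -(2 * S) - 1 := by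
      have : Real.exp 1 * S ≤ 3 * S := mul_le_mul_of_nonneg_right (by linarith) hsum0
      linarith
    calc Real.exp ((r : ℝ) * -1 + Real.exp 1 * S) ≤ Real.exp (-(2 * S) - 1) :=
          Real.exp_le_exp.2 h1
      _ = Real.exp (-(2 * S)) / Real.exp 1 := by rw [Real.exp_sub]
      _ ≤ Real.exp (-(2 * S)) / 2 :=
          div_le_div_of_nonneg_left (Real.exp_pos _).le (by norm_num) (by linarith)
  have hcount : ∑ n ∈ range U, ∏ p ∈ Q, (1 - w p n) =
      (((Ioc U (2 * U)).filter (fun u : ℕ => ∀ q ∈ Q, ¬ (q : ℤ) ∣ val F t1 M u)).card : ℝ) := by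
    have h1 : (((Ioc U (2 * U)).filter (fun u : ℕ => ∀ q ∈ Q, ¬ (q : ℤ) ∣ val F t1 M u)).card : ℝ) =
        ∑ u ∈ Ico (U + 1) (2 * U + 1), if (∀ q ∈ Q, ¬ (q : ℤ) ∣ val F t1 M u) then (1 : ℝ) else 0 := by
      rw [← Finset.sum_filter, Finset.sum_const, nsmul_eq_mul, mul_one]
      have h2 : (Ioc U (2 * U)).filter (fun u : ℕ => ∀ q ∈ Q, ¬ (q : ℤ) ∣ val F t1 M u) =
          (Ico (U + 1) (2 * U + 1)).filter (fun u : ℕ => ∀ q ∈ Q, ¬ (q : ℤ) ∣ val F t1 M u) := by
        ext u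
        simp only [mem_filter, mem_Ioc, mem_Ico, Nat.lt_iff_add_one_le, Nat.lt_succ_iff]
        constructor
        · rintro ⟨⟨h3, h4⟩, h5⟩; exact ⟨⟨h3, by omega⟩, h5⟩
        · rintro ⟨⟨h3, h4⟩, h5⟩; exact ⟨⟨h3, by omega⟩, h5⟩
      rw [h2]
    rw [h1, Finset.sum_Ico_eq_sum_range]
    have h2 : 2 * U + 1 - (U + 1) = U := by omega
    rw [h2]
    apply Finset.sum_congr rfl
    intro n _
    split_ifs with h
    · apply Finset.prod_eq_one
      intro q hq
      simp only [w, if_neg (h q hq), sub_zero]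
    · obtain ⟨q, hq, hq'⟩ : ∃ q ∈ Q, (q : ℤ) ∣ val F t1 M (U + 1 + n) := by
        by_contra h'
        exact h (fun q hq hq' => h' ⟨q, hq, hq'⟩)
      apply Finset.prod_eq_zero hq
      simp only [w, if_pos hq', sub_self]
  rw [← hcount]
  refine le_trans ?_ hb
  have h1 : Real.exp (-(2 * Λ)) / 2 ≤ ∏ p ∈ Q, (1 - mean w p) -
      (Real.exp 1)⁻¹ ^ r * Real.exp (Real.exp 1 * S) := by
    have : Real.exp (-(2 * Λ)) ≤ Real.exp (-(2 * S)) := Real.exp_le_exp.2 (by linarith)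
    linarith
  have h2 := mul_le_mul_of_nonneg_left h1 (Nat.cast_nonneg (α := ℝ) U)
  linarith

theorem sieve_ : S_SIEVE := by
  intro F hF
  obtain ⟨CM, hCM0, hCM⟩ := inv_primes
  set d := F.natDegree with hd
  have hlog2 : 0 < Real.log 2 := Real.log_pos (by norm_num)
  obtain ⟨C', hC'⟩ := pow_unbounded_of_one_lt (4 * Real.exp (2 * d * CM))
    (by linarith : 1 < 1 + Real.log 2)
  refine ⟨2 * d + 2 + F.leadingCoeff.natAbs, 2 * d + C', fun K => ?_⟩
  set κ := max K 1 with hκ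
  have hκ1 : 1 ≤ κ := le_max_right _ _
  obtain ⟨x0, hx01, hx0⟩ := ev_le ((10 * κ + 2) * d) ((10 * d * CM + 6) * κ + 2 * d * CM + 3) κ
    (by positivity) (by linarith)
  refine ⟨⌈Real.exp (x0 ^ 2)⌉₊, fun U hU E hE hEK M t1 Q hQ => ?_⟩
  have hU' : Real.exp (x0 ^ 2) ≤ U := (Nat.le_ceil _).trans (by exact_mod_cast hU)
  have hU0 : (0 : ℝ) < U := lt_of_lt_of_le (Real.exp_pos _) hU'
  have hL : x0 ^ 2 ≤ Real.log U := (Real.le_log_iff_exp_le hU0).2 hU'
  set x := √(Real.log U) with hx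
  have hL0 : 0 ≤ Real.log U := by nlinarith
  have hxx : x * x = Real.log U := Real.mul_self_sqrt hL0
  have hxx0 : x0 ≤ x := Real.le_sqrt_of_sq_le hL
  have hx1 : 1 ≤ x := hx01.trans hxx0
  have hE0 : (0 : ℝ) < E := by exact_mod_cast (by omega : 0 < E)
  have hE2 : (2 : ℝ) ≤ E := by exact_mod_cast hE
  have hlE : Real.log 2 ≤ Real.log E := Real.log_le_log (by norm_num) hE2
  have hlEκ : Real.log E ≤ κ * x := hEK.trans (mul_le_mul_of_nonneg_right (le_max_left _ _) (by linarith))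
  set Λ := (d : ℝ) * (Real.log (1 + Real.log E) + CM) with hΛ
  have hΛ0 : 0 ≤ Λ := by
    have : 0 ≤ Real.log (1 + Real.log E) := Real.log_nonneg (by linarith)
    positivity
  set Λx := (d : ℝ) * (Real.log (1 + κ * x) + CM) with hΛx
  have hΛle : Λ ≤ Λx := by
    apply mul_le_mul_of_nonneg_left _ (Nat.cast_nonneg _)
    have : Real.log (1 + Real.log E) ≤ Real.log (1 + κ * x) :=
      Real.log_le_log (by linarith) (by linarith)
    linarith
  obtain ⟨r, hr, hr1, hr2⟩ : ∃ r : ℕ, Even r ∧ 5 * Λ + 1 ≤ (r : ℝ) ∧ (r : ℝ) ≤ 5 * Λ + 3 := by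
    refine ⟨2 * ⌈(5 * Λ + 1) / 2⌉₊, even_two_mul _, ?_, ?_⟩
    · have := Nat.le_ceil ((5 * Λ + 1) / 2)
      push_cast
      linarith
    · have := Nat.ceil_lt_add_one (by positivity : 0 ≤ (5 * Λ + 1) / 2)
      push_cast
      linarith
  have h1 := sieve_aux F hF CM hCM E hE M t1 Q hQ r U hr hr1
  refine le_trans ?_ h1
  rw [← hd, ← hΛ]
  -- the error term
  have h2 : 3 * (E : ℝ) ^ (2 * r) ≤ U * (Real.exp (-(2 * Λ)) / 4) := by
    have e1 : (E : ℝ) ^ (2 * r) = Real.exp (((2 * r : ℕ) : ℝ) * Real.log E) := by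
      rw [Real.exp_nat_mul, Real.exp_log hE0]
    have e2 : (U : ℝ) = Real.exp (x * x) := by rw [hxx, Real.exp_log hU0]
    have e3 : (12 : ℝ) ≤ Real.exp 3 := by
      have := Real.exp_one_gt_d9
      have h3 : Real.exp 3 = Real.exp 1 ^ 3 := by rw [← Real.exp_nat_mul]; norm_num
      rw [h3]
      have h4 : (2.7 : ℝ) ^ 3 ≤ Real.exp 1 ^ 3 := pow_le_pow_left₀ (by norm_num) (by linarith) 3
      norm_num at h4
      linarith
    have e4 : 3 + ((2 * r : ℕ) : ℝ) * Real.log E + 2 * Λ ≤ x * x := by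
      have e5 := hx0 x hxx0
      have e6 : (10 * κ + 2) * d * Real.log (1 + κ * x) + ((10 * d * CM + 6) * κ + 2 * d * CM + 3) =
          (10 * Λx + 6) * κ + 2 * Λx + 3 := by
        rw [hΛx]; ring
      rw [e6] at e5
      have e7 : ((2 * r : ℕ) : ℝ) * Real.log E ≤ (10 * Λx + 6) * (κ * x) := by
        apply mul_le_mul _ hlEκ (by linarith) (by linarith)
        push_cast
        linarith
      have e8 : ((10 * Λx + 6) * κ + 2 * Λx + 3) * x ≤ x * x :=
        mul_le_mul_of_nonneg_right e5 (by linarith)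
      have e9 : 0 ≤ Λx := hΛ0.trans hΛle
      have e10 : 2 * Λ + 3 ≤ (2 * Λx + 3) * x := by
        have : (2 * Λx + 3) * 1 ≤ (2 * Λx + 3) * x :=
          mul_le_mul_of_nonneg_left hx1 (by linarith)
        linarith
      nlinarith
    have e11 : 12 * (E : ℝ) ^ (2 * r) ≤ U * Real.exp (-(2 * Λ)) := by
      calc 12 * (E : ℝ) ^ (2 * r) ≤ Real.exp 3 * Real.exp (((2 * r : ℕ) : ℝ) * Real.log E) := by
            rw [e1]
            exact mul_le_mul_of_nonneg_right e3 (Real.exp_pos _).le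
        _ = Real.exp (3 + ((2 * r : ℕ) : ℝ) * Real.log E) := by rw [Real.exp_add]
        _ ≤ Real.exp (x * x + -(2 * Λ)) := Real.exp_le_exp.2 (by linarith)
        _ = U * Real.exp (-(2 * Λ)) := by rw [Real.exp_add, ← e2]
    linarith
  -- the main term
  have h3 : (U : ℝ) / (1 + Real.log E) ^ (2 * d + C') ≤ U * (Real.exp (-(2 * Λ)) / 4) := by
    rw [div_eq_mul_inv]
    apply mul_le_mul_of_nonneg_left _ hU0.le
    have f0 : 0 < 1 + Real.log E := by linarith
    have f1 : Real.exp (-(2 * Λ)) = ((1 + Real.log E) ^ (2 * d))⁻¹ * (Real.exp (2 * d * CM))⁻¹ := by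
      have : -(2 * Λ) = -(((2 * d : ℕ) : ℝ) * Real.log (1 + Real.log E)) + -(2 * d * CM) := by
        rw [hΛ]; push_cast; ring
      rw [this, Real.exp_add, Real.exp_neg, Real.exp_neg, Real.exp_nat_mul, Real.exp_log f0]
    have f2 : 4 * Real.exp (2 * d * CM) ≤ (1 + Real.log E) ^ C' :=
      hC'.le.trans (pow_le_pow_left₀ (by linarith) (by linarith) _)
    rw [f1, pow_add, mul_inv]
    have f3 : ((1 + Real.log E) ^ C')⁻¹ ≤ (4 * Real.exp (2 * d * CM))⁻¹ :=
      inv_anti₀ (by positivity) f2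
    rw [mul_inv] at f3
    have f4 := mul_le_mul_of_nonneg_left f3 (by positivity : 0 ≤ ((1 + Real.log E) ^ (2 * d))⁻¹)
    linarith
  linarith

end Pool.Agent.W216.HB
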