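import Pool.Agent.Helper742.Brun
import Pool.Agent.Helper256.KM.Mertens

/-!
# The lower bound in the pure sieve of Brun
-/

set_option autoImplicit false

namespace Pool.Agent.W216.HB

open Finset Pool.Agent.Helper742

lemma E'_even_ge (u : ℕ → ℝ) (T : Finset ℕ) (h0 : ∀ p ∈ T, 0 ≤ u p) (h1 : ∀ p ∈ T, u p ≤ 1)
    (r : ℕ) (hr : Even r) (K : ℝ) (hK : 0 < K) :
    ∏ p ∈ T, (1 - u p) - (K⁻¹) ^ r * Real.exp (K * ∑ p ∈ T, u p) ≤ E' u r T := by
  have h2 : E' u (r + 1) T = E' u r T
      + ∑ A ∈ T.powerset with A.card = r, ∏ p ∈ A, u p := by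
    rw [E', E', Finset.sum_filter, Finset.sum_filter, Finset.sum_filter,
      ← Finset.sum_add_distrib]
    apply Finset.sum_congr rfl
    intro A _
    rcases lt_trichotomy A.card r with h | h | h
    · rw [if_pos h, if_pos (by omega), if_neg (by omega)]; ring
    · rw [if_pos (by omega : A.card < r + 1), if_neg (by omega : ¬ A.card < r), if_pos h, h,
        hr.neg_one_pow]
      ring
    · rw [if_neg (by omega), if_neg (by omega), if_neg (by omega)]; ring
  have h3 := bonf_odd u T h0 h1 (r + 1) hr.add_one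
  have h4 : ∑ A ∈ T.powerset with A.card = r, ∏ p ∈ A, u p
      ≤ (K⁻¹) ^ r * ∏ p ∈ T, (1 + K * u p) := by
    rw [Finset.prod_one_add, Finset.mul_sum, Finset.sum_filter]
    apply Finset.sum_le_sum
    intro A hA
    rw [Finset.mem_powerset] at hA
    have hpr : 0 ≤ ∏ p ∈ A, u p := Finset.prod_nonneg (fun p hp => h0 p (hA hp))
    rw [Finset.prod_mul_distrib, Finset.prod_const]
    split_ifs with h
    · rw [h, ← mul_assoc, ← mul_pow, inv_mul_cancel₀ hK.ne', one_pow, one_mul]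
    · positivity
  have h5 : ∏ p ∈ T, (1 + K * u p) ≤ Real.exp (K * ∑ p ∈ T, u p) := by
    rw [Finset.mul_sum, Real.exp_sum]
    apply Finset.prod_le_prod
    · intro p hp
      have := h0 p hp
      positivity
    · intro p hp
      have := Real.add_one_le_exp (K * u p)
      linarith
  have h6 : (K⁻¹) ^ r * ∏ p ∈ T, (1 + K * u p) ≤ (K⁻¹) ^ r * Real.exp (K * ∑ p ∈ T, u p) :=
    mul_le_mul_of_nonneg_left h5 (by positivity)
  linarith

/-- Brun's pure sieve with general local weights, lower bound. -/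
theorem brun_lower (T : Finset ℕ) (y r : ℕ) (hy : 1 ≤ y) (hr : Even r)
    (hT : ∀ p ∈ T, p.Prime ∧ p ≤ y) (u : ℕ → ℕ → ℝ)
    (hu0 : ∀ p ∈ T, ∀ n, 0 ≤ u p n) (hu1 : ∀ p ∈ T, ∀ n, u p n ≤ 1)
    (hper : ∀ p ∈ T, ∀ n, u p (n % p) = u p n) (K : ℝ) (hK : 0 < K) (X : ℕ) :
    X * (∏ p ∈ T, (1 - mean u p) - (K⁻¹) ^ r * Real.exp (K * ∑ p ∈ T, mean u p))
        - 3 * (y : ℝ) ^ (2 * r) ≤ ∑ n ∈ range X, ∏ p ∈ T, (1 - u p n) := by
  have hm0 : ∀ p ∈ T, 0 ≤ mean u p := fun p hp =>
    div_nonneg (Finset.sum_nonneg (fun n _ => hu0 p hp n)) (by positivity)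
  have hm1 : ∀ p ∈ T, mean u p ≤ 1 := by
    intro p hp
    have hpp : (0 : ℝ) < p := by exact_mod_cast (hT p hp).1.pos
    rw [mean, div_le_one hpp]
    calc ∑ n ∈ range p, u p n ≤ ∑ n ∈ range p, (1 : ℝ) :=
          Finset.sum_le_sum (fun n _ => hu1 p hp n)
      _ = p := by simp
  have hy' : (1 : ℝ) ≤ y := by exact_mod_cast hy
  have h1 : ∑ n ∈ range X, E' (fun p => u p n) r T
      ≤ ∑ n ∈ range X, ∏ p ∈ T, (1 - u p n) := by
    apply Finset.sum_le_sum
    intro n _
    exact bonf_even (fun p => u p n) T (fun p hp => hu0 p hp n) (fun p hp => hu1 p hp n) r hr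
  have h2 : ∑ n ∈ range X, E' (fun p => u p n) r T
      = ∑ A ∈ T.powerset with A.card < r, (-1 : ℝ) ^ A.card * ∑ n ∈ range X, ∏ p ∈ A, u p n := by
    simp only [E']
    rw [Finset.sum_comm]
    apply Finset.sum_congr rfl
    intro A _
    rw [Finset.mul_sum]
  have h3 : ∀ A ∈ T.powerset.filter (fun A => A.card < r),
      X * ((-1 : ℝ) ^ A.card * ∏ p ∈ A, mean u p)
          - (y : ℝ) ^ (2 * r) * ∏ p ∈ A, (y : ℝ)⁻¹
      ≤ (-1 : ℝ) ^ A.card * ∑ n ∈ range X, ∏ p ∈ A, u p n := by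
    intro A hA
    rw [Finset.mem_filter, Finset.mem_powerset] at hA
    obtain ⟨hA, hcard⟩ := hA
    have hAp : ∀ p ∈ A, p.Prime := fun p hp => (hT p (hA hp)).1
    have hQ : 0 < ∏ p ∈ A, p := Finset.prod_pos (fun p hp => (hAp p hp).pos)
    have h4 := sum_periodic (∏ p ∈ A, p) hQ (fun n => ∏ p ∈ A, u p n)
      (fun n => Finset.prod_nonneg (fun p hp => hu0 p (hA hp) n))
      (fun n => Finset.prod_le_one (fun p hp => hu0 p (hA hp) n) (fun p hp => hu1 p (hA hp) n))
      (by
        intro n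
        apply Finset.prod_congr rfl
        intro p hp
        rw [← hper p (hA hp), Nat.mod_mod_of_dvd _ (Finset.dvd_prod_of_mem _ hp),
          hper p (hA hp)]) X
    rw [sum_prod_period A hAp u (fun p hp => hper p (hA hp))] at h4
    have h5 : (∏ p ∈ A, ∑ n ∈ range p, u p n) / ((∏ p ∈ A, p : ℕ) : ℝ)
        = ∏ p ∈ A, mean u p := by
      simp only [mean]
      rw [Finset.prod_div_distrib]
      push_cast
      rfl
    rw [h5] at h4
    have h6 : ((∏ p ∈ A, p : ℕ) : ℝ) ≤ (y : ℝ) ^ (2 * r) * ∏ p ∈ A, (y : ℝ)⁻¹ := by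
      rw [Finset.prod_const]
      have h7 : ((∏ p ∈ A, p : ℕ) : ℝ) ≤ (y : ℝ) ^ A.card := by
        push_cast
        calc ∏ p ∈ A, (p : ℝ) ≤ ∏ p ∈ A, (y : ℝ) := by
              apply Finset.prod_le_prod
              · intro p _; positivity
              · intro p hp; exact_mod_cast (hT p (hA hp)).2
          _ = _ := by rw [Finset.prod_const]
      have h8 : (y : ℝ) ^ A.card * (y : ℝ) ^ A.card ≤ (y : ℝ) ^ (2 * r) := by
        rw [← pow_add]
        exact pow_le_pow_right₀ hy' (by omega)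
      rw [inv_pow, ← div_eq_mul_inv, le_div_iff₀ (by positivity)]
      calc _ ≤ (y : ℝ) ^ A.card * (y : ℝ) ^ A.card := by gcongr
        _ ≤ _ := h8
    have h9 := abs_le.1 (h4.trans h6)
    rcases Nat.even_or_odd A.card with he | ho
    · rw [he.neg_one_pow]
      linarith [h9.1]
    · rw [ho.neg_one_pow]
      linarith [h9.2]
  have h10 : ∑ A ∈ T.powerset with A.card < r, (y : ℝ) ^ (2 * r) * ∏ p ∈ A, (y : ℝ)⁻¹
      ≤ 3 * (y : ℝ) ^ (2 * r) := by
    rw [← Finset.mul_sum, mul_comm]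
    apply mul_le_mul_of_nonneg_right _ (by positivity)
    calc ∑ A ∈ T.powerset with A.card < r, ∏ p ∈ A, (y : ℝ)⁻¹
        ≤ ∑ A ∈ T.powerset, ∏ p ∈ A, (y : ℝ)⁻¹ := by
          apply Finset.sum_le_sum_of_subset_of_nonneg (Finset.filter_subset _ _)
          intro A _ _
          exact Finset.prod_nonneg (fun p _ => by positivity)
      _ = ∏ p ∈ T, (1 + (y : ℝ)⁻¹) := by rw [Finset.prod_one_add]
      _ ≤ ∏ p ∈ T, Real.exp ((y : ℝ)⁻¹) := by
          apply Finset.prod_le_prod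
          · intro p _; positivity
          · intro p _
            have := Real.add_one_le_exp ((y : ℝ)⁻¹)
            linarith
      _ = Real.exp (T.card * (y : ℝ)⁻¹) := by
          rw [Finset.prod_const, ← Real.exp_nat_mul]
      _ ≤ Real.exp 1 := by
          apply Real.exp_le_exp.2
          have hc : T.card ≤ y := by
            calc T.card ≤ (Finset.Icc 1 y).card := by
                  apply Finset.card_le_card
                  intro p hp
                  rw [Finset.mem_Icc]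
                  exact ⟨(hT p hp).1.one_le, (hT p hp).2⟩
              _ = y := by simp
          have hc' : (T.card : ℝ) ≤ y := by exact_mod_cast hc
          rw [← div_eq_mul_inv, div_le_one (by linarith)]
          exact hc'
      _ ≤ 3 := by
          have := Real.exp_one_lt_d9
          linarith
  have h11 : ∑ A ∈ T.powerset with A.card < r,
      (X * ((-1 : ℝ) ^ A.card * ∏ p ∈ A, mean u p) - (y : ℝ) ^ (2 * r) * ∏ p ∈ A, (y : ℝ)⁻¹)
      = X * E' (mean u) r T
        - ∑ A ∈ T.powerset with A.card < r, (y : ℝ) ^ (2 * r) * ∏ p ∈ A, (y : ℝ)⁻¹ := by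
    rw [Finset.sum_sub_distrib, E', Finset.mul_sum]
  have h12 := E'_even_ge (mean u) T hm0 hm1 r hr K hK
  have h13 := Finset.sum_le_sum h3
  rw [h11] at h13
  have h14 : (X : ℝ) * (∏ p ∈ T, (1 - mean u p) - (K⁻¹) ^ r * Real.exp (K * ∑ p ∈ T, mean u p))
      ≤ (X : ℝ) * E' (mean u) r T :=
    mul_le_mul_of_nonneg_left h12 (by positivity)
  linarith

/-- Sums of inverse primes. -/
theorem inv_primes : ∃ C : ℝ, 0 ≤ C ∧ ∀ N : ℕ, 2 ≤ N →
    ∑ p ∈ (Finset.Icc 1 N).filter Nat.Prime, (1 : ℝ) / p ≤ Real.log (1 + Real.log N) + C := by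
  obtain ⟨C, hC⟩ := Pool.Agent.Helper256.KM.mertens_inv
  refine ⟨max C 1, le_trans zero_le_one (le_max_right _ _), fun N hN => ?_⟩
  have hl : 0 < Real.log N := Real.log_pos (by exact_mod_cast hN)
  rcases Nat.lt_or_ge 2 N with h3 | h3
  · have h := (abs_le.1 (hC N h3)).2
    have h4 : Real.log (Real.log N) ≤ Real.log (1 + Real.log N) :=
      Real.log_le_log hl (by linarith)
    have := le_max_left C 1
    linarith
  · obtain rfl : N = 2 := by omega
    have h4 : (Finset.Icc 1 2).filter Nat.Prime = {2} := by decide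
    rw [h4, Finset.sum_singleton]
    have h5 : 0 ≤ Real.log (1 + Real.log (2 : ℕ)) := Real.log_nonneg (by linarith)
    have := le_max_right C 1
    norm_num at h5 ⊢
    linarith

end Pool.Agent.W216.HB
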